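import Mathlib

namespace Pool.Agent.Results.MP_4f3dfd_co.Link

open Finset

open Classical in
/-- The shadow of a family of `c`-sets: the `(c-1)`-sets contained in some member. -/
noncomputable def shad {n : ℕ} (c : ℕ) (J : Finset (Finset (Fin n))) : Finset (Finset (Fin n)) :=
  Finset.univ.filter (fun Y => Y.card = c - 1 ∧ ∃ X ∈ J, Y ⊆ X)

/-- Every point lies in the same number of members. -/
def Regular {n : ℕ} (J : Finset (Finset (Fin n))) : Prop :=
  ∃ d : ℕ, ∀ i : Fin n, (J.filter (fun X => i ∈ X)).card = d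

/-- `f(n,c,m)`: the least shadow size of a regular family of `m` distinct `c`-sets. -/
noncomputable def f (n c m : ℕ) : ℕ :=
  sInf {s | ∃ J : Finset (Finset (Fin n)), (∀ X ∈ J, X.card = c) ∧ Regular J ∧ J.card = m ∧
    (shad c J).card = s}

lemma mem_shad {n c : ℕ} (J : Finset (Finset (Fin n))) (Y : Finset (Fin n)) :
    Y ∈ shad c J ↔ Y.card = c - 1 ∧ ∃ X ∈ J, Y ⊆ X := by
  simp [shad]

lemma dbl {n r : ℕ} (K : Finset (Finset (Fin n))) (hK : ∀ X ∈ K, X.card = r) :
    ∑ i : Fin n, (K.filter (fun X => i ∈ X)).card = K.card * r := by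
  simp only [Finset.card_filter]
  rw [Finset.sum_comm]
  have : ∀ X ∈ K, (∑ i : Fin n, if i ∈ X then 1 else 0) = r := by
    intro X hX
    rw [Finset.sum_ite_mem, Finset.univ_inter, Finset.sum_const, smul_eq_mul, mul_one, hK X hX]
  rw [Finset.sum_congr rfl this, Finset.sum_const, smul_eq_mul]

lemma lower {n r b : ℕ} (hrb : r + 1 ≤ b) (hbn : b + 1 ≤ n) (J : Finset (Finset (Fin n)))
    (hJ : ∀ X ∈ J, X.card = r + 2) (hR : Regular J)
    (hm : n * b.choose (r + 1) ≤ (r + 2) * J.card) :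
    n * b.choose r ≤ (r + 1) * (shad (r + 2) J).card := by
  obtain ⟨d, hd⟩ := hR
  have h1 := dbl J hJ
  rw [Finset.sum_congr rfl (fun i _ => hd i), Finset.sum_const, Finset.card_univ,
    Fintype.card_fin, smul_eq_mul] at h1
  have hdb : b.choose (r + 1) ≤ d := by
    refine Nat.le_of_mul_le_mul_left ?_ (by omega : 0 < n)
    rw [h1, mul_comm J.card]
    exact hm
  have h2 := dbl (r := r + 1) (shad (r + 2) J) (fun Y hY => ((mem_shad J Y).1 hY).1)
  have h3 : ∀ i ∈ (Finset.univ : Finset (Fin n)),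
      b.choose r ≤ ((shad (r + 2) J).filter (fun X => i ∈ X)).card := by
    intro i _
    obtain ⟨L, hL⟩ : ∃ L : Finset (Finset (Fin n)),
      L = (J.filter (fun X => i ∈ X)).image (fun X => X.erase i) := ⟨_, rfl⟩
    have hLm : ∀ Z ∈ L, ∃ X ∈ J, i ∈ X ∧ X.erase i = Z := by
      intro Z hZ
      rw [hL] at hZ
      obtain ⟨X, hX, rfl⟩ := Finset.mem_image.1 hZ
      exact ⟨X, (Finset.mem_filter.1 hX).1, (Finset.mem_filter.1 hX).2, rfl⟩
    have hLc : L.card = d := by
      rw [hL, Finset.card_image_of_injOn, hd]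
      intro X hX Y hY h
      have hX' := (Finset.mem_filter.1 (Finset.mem_coe.1 hX)).2
      have hY' := (Finset.mem_filter.1 (Finset.mem_coe.1 hY)).2
      have h' : X.erase i = Y.erase i := h
      rw [← Finset.insert_erase hX', h', Finset.insert_erase hY']
    have hLs : (L : Set (Finset (Fin n))).Sized (r + 1) := by
      intro Z hZ
      obtain ⟨X, hX, hi, rfl⟩ := hLm Z (Finset.mem_coe.1 hZ)
      rw [Finset.card_erase_of_mem hi, hJ X hX]
      omega
    have hk := Finset.kruskal_katona_lovasz_form (i := 1) (r := r + 1) (k := b) (by omega) hrb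
      (by omega) hLs (by rw [hLc]; exact hdb)
    rw [Nat.add_sub_cancel, Function.iterate_one] at hk
    refine hk.trans ?_
    have hsh : ∀ Z ∈ Finset.shadow L, i ∉ Z ∧ Z.card = r ∧ ∃ X ∈ J, insert i Z ⊆ X := by
      intro Z hZ
      obtain ⟨W, hW, y, hy, rfl⟩ := Finset.mem_shadow_iff.1 hZ
      obtain ⟨X, hX, hi, rfl⟩ := hLm W hW
      refine ⟨fun h => Finset.notMem_erase i X (Finset.mem_of_mem_erase h), ?_, X, hX, ?_⟩
      · rw [Finset.card_erase_of_mem hy, Finset.card_erase_of_mem hi, hJ X hX]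
        omega
      · exact Finset.insert_subset hi ((Finset.erase_subset _ _).trans (Finset.erase_subset _ _))
    refine Finset.card_le_card_of_injOn (fun Z => insert i Z) (fun Z hZ => ?_)
      (fun Z hZ W hW h => ?_)
    · obtain ⟨g1, g2, g3⟩ := hsh Z (Finset.mem_coe.1 hZ)
      refine Finset.mem_coe.2 (Finset.mem_filter.2 ⟨(mem_shad J _).2 ⟨?_, g3⟩,
        Finset.mem_insert_self _ _⟩)
      rw [Finset.card_insert_of_notMem g1, g2]
      omega
    · have h' : insert i Z = insert i W := h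
      rw [← Finset.erase_insert (hsh Z (Finset.mem_coe.1 hZ)).1, h',
        Finset.erase_insert (hsh W (Finset.mem_coe.1 hW)).1]
  have h4 := Finset.card_nsmul_le_sum _ _ _ h3
  rw [h2, Finset.card_univ, Fintype.card_fin, smul_eq_mul] at h4
  rw [mul_comm (r + 1)]
  exact h4

lemma construct (t a c : ℕ) (hc : 1 ≤ c) :
    ∃ J : Finset (Finset (Fin (t * a))), (∀ X ∈ J, X.card = c) ∧ Regular J ∧
      J.card = t * a.choose c ∧ (shad c J).card ≤ t * a.choose (c - 1) := by
  classical
  obtain ⟨B, hB⟩ : ∃ B : Fin t → Finset (Fin (t * a)),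
      ∀ j x, x ∈ B j ↔ (finProdFinEquiv.symm x).1 = j :=
    ⟨fun j => Finset.univ.filter (fun x => (finProdFinEquiv.symm x).1 = j), fun j x => by simp⟩
  have hBc : ∀ j, (B j).card = a := by
    intro j
    have : B j = Finset.univ.image (fun y : Fin a => finProdFinEquiv (j, y)) := by
      ext x
      rw [hB, Finset.mem_image]
      constructor
      · rintro rfl
        exact ⟨(finProdFinEquiv.symm x).2, Finset.mem_univ _, finProdFinEquiv.apply_symm_apply x⟩
      · rintro ⟨y, -, rfl⟩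
        rw [Equiv.symm_apply_apply]
    rw [this, Finset.card_image_of_injective]
    · simp
    · intro y z h
      exact (Prod.ext_iff.1 (finProdFinEquiv.injective h)).2
  refine ⟨Finset.univ.biUnion (fun j => Finset.powersetCard c (B j)), ?_,
    ⟨(a - 1).choose (c - 1), fun i => ?_⟩, ?_, ?_⟩
  · intro X hX
    obtain ⟨j, -, hj⟩ := Finset.mem_biUnion.1 hX
    exact (Finset.mem_powersetCard.1 hj).2
  · have e : (Finset.univ.biUnion (fun j => Finset.powersetCard c (B j))).filter
        (fun X => i ∈ X) = (Finset.powersetCard c (B (finProdFinEquiv.symm i).1)).filter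
          (fun X => ({i} : Finset (Fin (t * a))) ⊆ X) := by
      ext X
      simp only [Finset.mem_filter, Finset.mem_biUnion, Finset.mem_univ, true_and,
        Finset.singleton_subset_iff]
      constructor
      · rintro ⟨⟨j, hj⟩, hi⟩
        rw [(hB j i).1 ((Finset.mem_powersetCard.1 hj).1 hi)]
        exact ⟨hj, hi⟩
      · rintro ⟨hj, hi⟩
        exact ⟨⟨_, hj⟩, hi⟩
    rw [e, Finset.card_filter_powersetCard_subset _ _ _
      (Finset.singleton_subset_iff.2 ((hB _ i).2 rfl)) (by simpa using hc), hBc,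
      Finset.card_singleton]
  · rw [Finset.card_biUnion]
    · simp [Finset.card_powersetCard, hBc]
    · intro j _ k _ hjk
      rw [Function.onFun, Finset.disjoint_left]
      intro X h1 h2
      rw [Finset.mem_powersetCard] at h1 h2
      obtain ⟨x, hx⟩ : X.Nonempty := Finset.card_pos.1 (by omega)
      exact hjk (((hB j x).1 (h1.1 hx)).symm.trans ((hB k x).1 (h2.1 hx)))
  · have h1 : shad c (Finset.univ.biUnion (fun j => Finset.powersetCard c (B j))) ⊆
        Finset.univ.biUnion (fun j => Finset.powersetCard (c - 1) (B j)) := by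
      intro Y hY
      obtain ⟨g1, X, hX, g2⟩ := (mem_shad _ Y).1 hY
      obtain ⟨j, -, hj⟩ := Finset.mem_biUnion.1 hX
      exact Finset.mem_biUnion.2 ⟨j, Finset.mem_univ _, Finset.mem_powersetCard.2
        ⟨g2.trans (Finset.mem_powersetCard.1 hj).1, g1⟩⟩
    refine (Finset.card_le_card h1).trans
      ((Finset.card_biUnion_le_card_mul _ _ (a.choose (c - 1)) (fun j _ => ?_)).trans ?_)
    · rw [Finset.card_powersetCard, hBc]
    · simp

lemma all_parts (c a : ℕ) (hc : 2 ≤ c) (hca : c ≤ a) :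
    (∀ (n : ℕ) (J : Finset (Finset (Fin n))), a ≤ n → (∀ X ∈ J, X.card = c) → Regular J →
      n * (a - 1).choose (c - 1) ≤ c * J.card →
      n * (a - 1).choose (c - 2) ≤ (c - 1) * (shad c J).card) ∧
    ∀ t : ℕ, 1 ≤ t →
      (∃ J : Finset (Finset (Fin (t * a))), (∀ X ∈ J, X.card = c) ∧ Regular J ∧
        J.card = t * a.choose c) ∧
      f (t * a) c (t * a.choose c) = t * a.choose (c - 1) := by
  obtain ⟨r, rfl⟩ : ∃ r, c = r + 2 := ⟨c - 2, by omega⟩
  obtain ⟨b, rfl⟩ : ∃ b, a = b + 1 := ⟨a - 1, by omega⟩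
  refine ⟨fun n J hn hJ hR hm => lower (by omega) hn J hJ hR hm, fun t ht => ?_⟩
  obtain ⟨J0, g1, g2, g3, g4⟩ := construct t (b + 1) (r + 2) (by omega)
  refine ⟨⟨J0, g1, g2, g3⟩, le_antisymm ?_ ?_⟩
  · exact le_trans (Nat.sInf_le ⟨J0, g1, g2, g3, rfl⟩) g4
  · obtain ⟨J, h1, h2, h3, h4⟩ : ∃ J : Finset (Finset (Fin (t * (b + 1)))),
        (∀ X ∈ J, X.card = r + 2) ∧ Regular J ∧ J.card = t * (b + 1).choose (r + 2) ∧
        (shad (r + 2) J).card = f (t * (b + 1)) (r + 2) (t * (b + 1).choose (r + 2)) :=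
      Nat.sInf_mem (s := {s | ∃ J : Finset (Finset (Fin (t * (b + 1)))),
        (∀ X ∈ J, X.card = r + 2) ∧ Regular J ∧ J.card = t * (b + 1).choose (r + 2) ∧
        (shad (r + 2) J).card = s}) ⟨_, J0, g1, g2, g3, rfl⟩
    have e1 := Nat.add_one_mul_choose_eq b (r + 1)
    have e2 := Nat.add_one_mul_choose_eq b r
    have h5 := lower (b := b) (by omega) (Nat.le_mul_of_pos_left _ ht) J h1 h2 (by
      rw [h3, mul_assoc, e1]
      exact le_of_eq (by ring))
    rw [h4, mul_assoc, e2] at h5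
    refine Nat.le_of_mul_le_mul_left ?_ (by omega : 0 < r + 1)
    calc (r + 1) * (t * (b + 1).choose (r + 2 - 1)) = t * ((b + 1).choose (r + 1) * (r + 1)) := by
          rw [show r + 2 - 1 = r + 1 from rfl]; ring
      _ ≤ _ := h5

theorem result (c a t : ℕ) (hc : 2 ≤ c) (hca : c ≤ a) (ht : 1 ≤ t) :
    (∃ J : Finset (Finset (Fin (t * a))), (∀ X ∈ J, X.card = c) ∧ Regular J ∧
      J.card = t * a.choose c) ∧
    f (t * a) c (t * a.choose c) = t * a.choose (c - 1) :=
  (all_parts c a hc hca).2 t ht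

end Pool.Agent.Results.MP_4f3dfd_co.Link
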